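import Pool.Agent.H41.HKB.Targets

/-!
Rows HVY, CW and RAM of the board hkb_modules (MP_bd932b_co).
-/

set_option autoImplicit false

namespace Pool.Agent.H19.HKB

open Finset Pool.Agent.H42.BD Pool.Agent.H41.HKB
open scoped Classical

/-- Row HVY. -/
theorem pf_HVY (hEMB : T_EMB) : T_HVY := by
  intro k V _ G hG x K hK hcard
  by_contra hcon
  push Not at hcon
  let e := K.equivFinOfCardEq hcard
  apply hG
  refine hEMB k V G x (fun i => ((e.symm i : K) : V)) ∅ (fun _ => x) ?_ ?_ ?_ ?_ ?_
  · intro i j hij
    exact e.symm.injective (Subtype.ext hij)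
  · intro i
    exact mem_nb.1 (hK (e.symm i).2)
  · intro p hp
    exact absurd hp (notMem_empty p)
  · intro p hp
    exact absurd hp (notMem_empty p)
  · intro i j hij _
    apply hcon _ (e.symm i).2 _ (e.symm j).2
    intro h
    exact hij (e.symm.injective (Subtype.ext h))

/-- the arithmetic of the induction step -/
lemma cw_arith (b s m X : ℤ) (hm : 0 ≤ m) (hX : 0 ≤ X) (h : b ^ 2 ≤ m * X) :
    (b + s) ^ 2 ≤ (m + 1) * (X + s ^ 2) := by
  rcases eq_or_lt_of_le hm with h0 | h0
  · rw [← h0, zero_mul] at h
    have hb : b = 0 := by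
      have := sq_nonneg b
      exact pow_eq_zero_iff (two_ne_zero) |>.1 (le_antisymm h this)
    subst hb
    rw [← h0]
    nlinarith
  · have h1 : 0 ≤ m * ((m + 1) * (X + s ^ 2) - (b + s) ^ 2) := by
      have h2 : m * ((m + 1) * (X + s ^ 2) - (b + s) ^ 2) =
          (m + 1) * (m * X - b ^ 2) + (b - m * s) ^ 2 := by ring
      rw [h2]
      have h3 : 0 ≤ (m + 1) * (m * X - b ^ 2) := mul_nonneg (by omega) (by linarith)
      have h4 := sq_nonneg (b - m * s)
      linarith
    have h5 := nonneg_of_mul_nonneg_right h1 h0
    linarith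

lemma cw_nat (b s m T : ℕ) (h : b ^ 2 ≤ m * (b + T)) : (b + s) ^ 2 ≤ (m + 1) * (b + T + s ^ 2) := by
  have h1 := cw_arith (b : ℤ) (s : ℤ) (m : ℤ) ((b : ℤ) + T) (by positivity) (by positivity)
    (by exact_mod_cast h)
  exact_mod_cast h1

lemma cw_aux {V : Type} (E : V → V → Prop) (hE : ∀ a b, E a b → E b a) :
    ∀ (B : Finset V) (m : ℕ),
      (∀ A ⊆ B, A.card = m + 1 → ∃ a ∈ A, ∃ b ∈ A, a ≠ b ∧ E a b) →
      B.card ^ 2 ≤ m * (B.card + ∑ a ∈ B, (B.filter (fun b => a ≠ b ∧ E a b)).card) := by
  intro B
  induction B using Finset.strongInduction with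
  | H B ih =>
    intro m hm
    rcases B.eq_empty_or_nonempty with rfl | hne
    · simp
    obtain ⟨v, hv, hmin⟩ := exists_min_image B
      (fun a => (B.filter (fun b => a ≠ b ∧ E a b)).card) hne
    cases m with
    | zero =>
      obtain ⟨a, ha, b, hb, hab, -⟩ := hm {v} (singleton_subset_iff.2 hv) (card_singleton v)
      rw [mem_singleton] at ha hb
      exact absurd (ha.trans hb.symm) hab
    | succ m =>
      set D := B.filter (fun b => v ≠ b ∧ E v b) with hD
      set S := insert v D with hS
      have hvD : v ∉ D := by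
        rw [hD, mem_filter]
        rintro ⟨-, h, -⟩
        exact h rfl
      have hSB : S ⊆ B := by
        rw [hS, insert_subset_iff]
        exact ⟨hv, filter_subset _ _⟩
      have hScard : S.card = D.card + 1 := card_insert_of_notMem hvD
      have hlt : B \ S ⊂ B := by
        refine ⟨sdiff_subset, fun h => ?_⟩
        have := h hv
        rw [mem_sdiff] at this
        exact this.2 (mem_insert_self v D)
      have h1 := ih (B \ S) hlt m (by
        intro A hA hAc
        have hvA : v ∉ A := by
          intro h
          have := hA h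
          rw [mem_sdiff] at this
          exact this.2 (mem_insert_self v D)
        have hAD : ∀ b ∈ A, ¬ E v b := by
          intro b hb hEb
          have h2 := hA hb
          rw [mem_sdiff] at h2
          apply h2.2
          rw [hS, mem_insert, hD, mem_filter]
          right
          exact ⟨h2.1, fun h => hvA (h ▸ hb), hEb⟩
        obtain ⟨a, ha, b, hb, hab, hEab⟩ := hm (insert v A)
          (insert_subset_iff.2 ⟨hv, hA.trans sdiff_subset⟩)
          (by rw [card_insert_of_notMem hvA, hAc])
        rw [mem_insert] at ha hb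
        rcases ha with rfl | ha
        · rcases hb with rfl | hb
          · exact absurd rfl hab
          · exact absurd hEab (hAD b hb)
        · rcases hb with rfl | hb
          · exact absurd (hE _ _ hEab) (hAD a ha)
          · exact ⟨a, ha, b, hb, hab, hEab⟩)
      have hc : (B \ S).card + S.card = B.card := by
        rw [card_sdiff_add_card_eq_card hSB]
      have hsum : ∑ a ∈ B \ S, ((B \ S).filter (fun b => a ≠ b ∧ E a b)).card +
          S.card * D.card ≤ ∑ a ∈ B, (B.filter (fun b => a ≠ b ∧ E a b)).card := by
        rw [← sum_sdiff hSB]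
        apply add_le_add
        · apply sum_le_sum
          intro a _
          exact card_le_card (filter_subset_filter _ sdiff_subset)
        · rw [← smul_eq_mul]
          apply card_nsmul_le_sum
          intro a ha
          exact hmin a (hSB ha)
      have h3 := cw_nat _ S.card _ _ h1
      rw [hc] at h3
      refine h3.trans (Nat.mul_le_mul_left _ ?_)
      have h4 : S.card ^ 2 = S.card * D.card + S.card := by
        rw [hScard]; ring
      omega

/-- Row CW. -/
theorem pf_CW : T_CW := by
  intro V B E m hE hm
  have h1 := cw_aux E hE B m hm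
  have h2 : ((B ×ˢ B).filter (fun p => p.1 ≠ p.2 ∧ E p.1 p.2)).card =
      ∑ a ∈ B, (B.filter (fun b => a ≠ b ∧ E a b)).card := by
    rw [card_filter, sum_product]
    apply sum_congr rfl
    intro a _
    rw [card_filter]
  rw [h2]
  exact h1

lemma ram_aux : ∀ a b : ℕ, ∃ N : ℕ, ∀ (V : Type) (A : Finset V) (E : V → V → Prop),
    (∀ x y, E x y → E y x) → N ≤ A.card →
    ∃ K ⊆ A, (K.card = a ∧ ∀ x ∈ K, ∀ y ∈ K, x ≠ y → E x y) ∨
      (K.card = b ∧ ∀ x ∈ K, ∀ y ∈ K, x ≠ y → ¬ E x y) := by
  intro a
  induction a with
  | zero =>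
    intro b
    refine ⟨0, fun V A E _ _ => ⟨∅, empty_subset _, Or.inl ⟨card_empty, ?_⟩⟩⟩
    intro x hx
    exact absurd hx (notMem_empty x)
  | succ a iha =>
    intro b
    induction b with
    | zero =>
      refine ⟨0, fun V A E _ _ => ⟨∅, empty_subset _, Or.inr ⟨card_empty, ?_⟩⟩⟩
      intro x hx
      exact absurd hx (notMem_empty x)
    | succ b ihb =>
      obtain ⟨N1, h1⟩ := iha (b + 1)
      obtain ⟨N2, h2⟩ := ihb
      refine ⟨N1 + N2 + 1, fun V A E hE hA => ?_⟩
      have hne : A.Nonempty := by
        rw [← card_pos]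
        omega
      obtain ⟨v, hv⟩ := hne
      have hc : ((A.erase v).filter (fun y => E v y)).card +
          ((A.erase v).filter (fun y => ¬ E v y)).card = A.card - 1 := by
        rw [card_filter_add_card_filter_not, card_erase_of_mem hv]
      by_cases hbig : N1 ≤ ((A.erase v).filter (fun y => E v y)).card
      · obtain ⟨K, hK, hK2⟩ := h1 V _ E hE hbig
        have hKA : K ⊆ A := hK.trans ((filter_subset _ _).trans (erase_subset _ _))
        rcases hK2 with ⟨hc1, hc2⟩ | hK2
        · have hvK : v ∉ K := by
            intro h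
            have := hK h
            rw [mem_filter, mem_erase] at this
            exact this.1.1 rfl
          refine ⟨insert v K, insert_subset_iff.2 ⟨hv, hKA⟩, Or.inl
            ⟨by rw [card_insert_of_notMem hvK, hc1], ?_⟩⟩
          intro x hx y hy hxy
          rw [mem_insert] at hx hy
          rcases hx with rfl | hx
          · rcases hy with rfl | hy
            · exact absurd rfl hxy
            · exact (mem_filter.1 (hK hy)).2
          · rcases hy with rfl | hy
            · exact hE _ _ (mem_filter.1 (hK hx)).2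
            · exact hc2 x hx y hy hxy
        · exact ⟨K, hKA, Or.inr hK2⟩
      · have hbig2 : N2 ≤ ((A.erase v).filter (fun y => ¬ E v y)).card := by omega
        obtain ⟨K, hK, hK2⟩ := h2 V _ E hE hbig2
        have hKA : K ⊆ A := hK.trans ((filter_subset _ _).trans (erase_subset _ _))
        rcases hK2 with hK2 | ⟨hc1, hc2⟩
        · exact ⟨K, hKA, Or.inl hK2⟩
        · have hvK : v ∉ K := by
            intro h
            have := hK h
            rw [mem_filter, mem_erase] at this
            exact this.1.1 rfl
          refine ⟨insert v K, insert_subset_iff.2 ⟨hv, hKA⟩, Or.inr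
            ⟨by rw [card_insert_of_notMem hvK, hc1], ?_⟩⟩
          intro x hx y hy hxy
          rw [mem_insert] at hx hy
          rcases hx with rfl | hx
          · rcases hy with rfl | hy
            · exact absurd rfl hxy
            · exact (mem_filter.1 (hK hy)).2
          · rcases hy with rfl | hy
            · intro h
              exact (mem_filter.1 (hK hx)).2 (hE _ _ h)
            · exact hc2 x hx y hy hxy

/-- Row RAM. -/
theorem pf_RAM : T_RAM := by
  intro k
  obtain ⟨N, hN⟩ := ram_aux k k
  refine ⟨N, fun V A E hE hA => ?_⟩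
  obtain ⟨K, hK, h⟩ := hN V A E hE hA
  rcases h with ⟨h1, h2⟩ | ⟨h1, h2⟩
  · exact ⟨K, hK, h1, Or.inl h2⟩
  · exact ⟨K, hK, h1, Or.inr h2⟩

end Pool.Agent.H19.HKB
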