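import Pool.Agent.H41.HKB.Targets

/-!
Row L2 of the board hkb_modules (MP_bd932b_co): the second moment of the codegrees.
-/

set_option autoImplicit false

namespace Pool.Agent.H19.HKB

open Finset Pool.Agent.H42.BD Pool.Agent.H41.HKB
open scoped Classical

/-- the degrees of the neighbours count the codegrees -/
lemma l2_sum_cd {V : Type} [Fintype V] (G : SimpleGraph V) (y : V) :
    ∑ y' : V, cd G y y' = ∑ u ∈ nb G y, (nb G u).card := by
  have h := Finset.sum_card_bipartiteAbove_eq_sum_card_bipartiteBelow (s := (univ : Finset V))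
    (t := nb G y) (fun y' u => G.Adj y' u)
  have e1 : ∀ y' : V, cd G y y' = ((nb G y).bipartiteAbove (fun y' u => G.Adj y' u) y').card := by
    intro y'
    unfold cd Finset.bipartiteAbove
    congr 1
    ext z
    rw [mem_cn, mem_filter, mem_nb]
  have e2 : ∀ u : V, (nb G u).card =
      ((univ : Finset V).bipartiteBelow (fun y' u => G.Adj y' u) u).card := by
    intro u
    unfold Finset.bipartiteBelow
    congr 1
    ext z
    rw [mem_nb, mem_filter]
    exact ⟨fun h => ⟨mem_univ _, h.symm⟩, fun h => h.2.symm⟩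
  rw [Finset.sum_congr rfl (fun y' _ => e1 y'), h]
  exact Finset.sum_congr rfl (fun u _ => (e2 u).symm)

/-- the light pairs in the blocks -/
lemma l2_sum_lt {V : Type} [Fintype V] (G : SimpleGraph V) (y : V) (m : ℕ) (s : Finset V) :
    ∑ y' ∈ s, ((cn G y y' ×ˢ cn G y y').filter (fun p => p.1 ≠ p.2 ∧ cd G p.1 p.2 < m)).card ≤
      m * (nb G y).card ^ 2 := by
  set t := (nb G y ×ˢ nb G y).filter (fun p => p.1 ≠ p.2 ∧ cd G p.1 p.2 < m) with ht
  have h := Finset.sum_card_bipartiteAbove_eq_sum_card_bipartiteBelow (s := s)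
    (t := t) (fun y' p => G.Adj y' p.1 ∧ G.Adj y' p.2)
  have e1 : ∀ y' : V, ((cn G y y' ×ˢ cn G y y').filter
      (fun p => p.1 ≠ p.2 ∧ cd G p.1 p.2 < m)).card =
      (t.bipartiteAbove (fun y' p => G.Adj y' p.1 ∧ G.Adj y' p.2) y').card := by
    intro y'
    unfold Finset.bipartiteAbove
    congr 1
    ext ⟨a, b⟩
    rw [ht]
    simp only [mem_filter, mem_product, mem_cn, mem_nb]
    constructor
    · rintro ⟨⟨⟨h1, h2⟩, h3, h4⟩, h5⟩
      exact ⟨⟨⟨h1, h3⟩, h5⟩, h2, h4⟩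
    · rintro ⟨⟨⟨h1, h3⟩, h5⟩, h2, h4⟩
      exact ⟨⟨⟨h1, h2⟩, h3, h4⟩, h5⟩
  rw [Finset.sum_congr rfl (fun y' _ => e1 y'), h]
  have e2 : ∀ p ∈ t, (s.bipartiteBelow (fun y' p => G.Adj y' p.1 ∧ G.Adj y' p.2) p).card ≤ m := by
    intro p hp
    rw [ht, mem_filter] at hp
    refine le_trans (card_le_card ?_) (le_of_lt hp.2.2)
    intro z hz
    unfold Finset.bipartiteBelow at hz
    rw [mem_filter] at hz
    rw [mem_cn]
    exact ⟨hz.2.1.symm, hz.2.2.symm⟩
  refine le_trans (Finset.sum_le_sum e2) ?_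
  rw [Finset.sum_const, smul_eq_mul, mul_comm]
  refine Nat.mul_le_mul_left _ ?_
  refine le_trans (card_filter_le _ _) ?_
  rw [card_product, sq]

/-- Row L2. -/
theorem pf_L2 (hHVY : T_HVY) (hCW : T_CW) : T_L2 := by
  intro k M hk2 hM V _ G hG y
  have h1 : ∀ y' ∈ univ.erase y, (cd G y y') ^ 2 ≤ (k - 1) * (cd G y y' +
      ((cn G y y' ×ˢ cn G y y').filter
        (fun p => p.1 ≠ p.2 ∧ cd G p.1 p.2 < hk k)).card) := by
    intro y' _
    have hcd : cd G y y' = (cn G y y').card := rfl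
    rw [hcd]
    refine le_trans (hCW V (cn G y y') (fun a b => cd G a b < hk k) (k - 1) ?_ ?_)
      (le_of_eq ?_)
    · intro a b h
      rwa [cd_comm] at h
    · intro A hA hc
      refine hHVY k V G hG.free y A (fun z hz => ?_) (by omega)
      exact mem_nb.2 (mem_cn.1 (hA hz)).1
    · congr
  have h2 : ∑ y' ∈ univ.erase y, (cd G y y') ^ 2 ≤ (k - 1) * (∑ u ∈ nb G y, (nb G u).card +
      hk k * (nb G y).card ^ 2) := by
    refine le_trans (Finset.sum_le_sum h1) ?_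
    rw [← Finset.mul_sum, Finset.sum_add_distrib]
    refine Nat.mul_le_mul_left _ (Nat.add_le_add ?_ (l2_sum_lt G y (hk k) _))
    rw [← l2_sum_cd]
    exact Finset.sum_le_sum_of_subset (erase_subset _ _)
  have hsn : sn V ^ 2 = Fintype.card V := by
    unfold sn
    exact Real.sq_sqrt (by positivity)
  have hsn0 : 0 ≤ sn V := by
    unfold sn
    positivity
  have h3 : (∑ u ∈ nb G y, ((nb G u).card : ℝ)) ≤ M ^ 2 * Fintype.card V := by
    have h4 : (∑ u ∈ nb G y, ((nb G u).card : ℝ)) ≤ ∑ u ∈ nb G y, M * sn V :=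
      Finset.sum_le_sum (fun u _ => hG.deg u)
    rw [Finset.sum_const, nsmul_eq_mul] at h4
    have h5 : ((nb G y).card : ℝ) * (M * sn V) ≤ (M * sn V) * (M * sn V) :=
      mul_le_mul_of_nonneg_right (hG.deg y) (by positivity)
    calc _ ≤ _ := h4
      _ ≤ _ := h5
      _ = M ^ 2 * sn V ^ 2 := by ring
      _ = _ := by rw [hsn]
  have h6 : ((nb G y).card : ℝ) ^ 2 ≤ M ^ 2 * Fintype.card V := by
    have h7 : ((nb G y).card : ℝ) ^ 2 ≤ (M * sn V) ^ 2 :=
      pow_le_pow_left₀ (by positivity) (hG.deg y) 2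
    rwa [mul_pow, hsn] at h7
  have h8 : ((∑ y' ∈ univ.erase y, (cd G y y') ^ 2 : ℕ) : ℝ) ≤
      (((k - 1) * (∑ u ∈ nb G y, (nb G u).card + hk k * (nb G y).card ^ 2) : ℕ) : ℝ) := by
    exact_mod_cast h2
  push_cast at h8
  rw [Nat.cast_sub (by omega)] at h8
  push_cast at h8
  refine le_trans h8 ?_
  have hk1 : (0 : ℝ) ≤ (k : ℝ) - 1 := by
    have : (2 : ℝ) ≤ (k : ℝ) := by exact_mod_cast hk2
    linarith
  have h9 : (hk k : ℝ) * ((nb G y).card : ℝ) ^ 2 ≤ (hk k : ℝ) * (M ^ 2 * Fintype.card V) :=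
    mul_le_mul_of_nonneg_left h6 (by positivity)
  unfold C2
  calc ((k : ℝ) - 1) * (∑ u ∈ nb G y, ((nb G u).card : ℝ) + (hk k : ℝ) * ((nb G y).card : ℝ) ^ 2)
      ≤ ((k : ℝ) - 1) * (M ^ 2 * Fintype.card V + (hk k : ℝ) * (M ^ 2 * Fintype.card V)) :=
        mul_le_mul_of_nonneg_left (add_le_add h3 h9) hk1
    _ = ((k : ℝ) - 1) * ((hk k : ℝ) + 1) * M ^ 2 * Fintype.card V := by ring

end Pool.Agent.H19.HKB
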